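import Pool.Agent.Helper37.Arb.Goals

/-!
# Packet ARB-DATA (MP_2b0227_gt): positivity and symmetry of the polynomial data
-/

namespace Pool.Agent.Helper39.Arb

open Pool.Agent.Helper37.Arb Polynomial

/-- The statement for both kinds of tangles. -/
def Both : ∀ {s : Bool}, Tangle s → Prop
  | true, t => t.data.L - t.data.R = (1 - X) * t.data.b ∧
      ∀ x : ℝ, 0 < x → 0 < t.data.l x ∧ 0 < t.data.r x ∧ 0 < t.data.f x ∧
        x ^ t.data.N * t.data.l x⁻¹ = t.data.r x ∧ x ^ t.data.N * t.data.r x⁻¹ = t.data.l x ∧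
        x ^ t.data.N * t.data.f x⁻¹ = x * t.data.f x
  | false, t => ∀ x : ℝ, 0 < x → 0 < t.data.l x ∧ 0 < t.data.f x ∧
      x ^ t.data.N * t.data.l x⁻¹ = t.data.l x ∧ x ^ t.data.N * t.data.f x⁻¹ = x * t.data.f x

/-- The relation for the values. -/
theorem rel {d : Data} (h : d.L - d.R = (1 - X) * d.b) (x : ℝ) :
    d.l x - d.r x = (1 - x) * d.f x := by
  have := congrArg (fun p : ℤ[X] => (aeval x p : ℝ)) h
  simpa [Data.l, Data.r, Data.f] using this

/-- The main induction. -/
theorem both : ∀ {s : Bool} (t : Tangle s), Both t := by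
  intro s t
  induction t with
  | cross =>
    refine ⟨by simp [Tangle.data], fun x hx => ?_⟩
    have hx0 : x ≠ 0 := hx.ne'
    simp [Data.l, Data.r, Data.f, Tangle.data, hx, hx0]
  | stack S T ihS ihT =>
    obtain ⟨rS, hS⟩ := ihS
    obtain ⟨rT, hT⟩ := ihT
    refine ⟨?_, fun x hx => ?_⟩
    · simp only [Tangle.data]
      linear_combination S.data.R * rT + T.data.L * rS
    · obtain ⟨s1, s2, s3, s4, s5, s6⟩ := hS x hx
      obtain ⟨t1, t2, t3, t4, t5, t6⟩ := hT x hx
      have qS := rel rS x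
      have qT := rel rT x
      have e1 : (Tangle.stack S T).data.N = S.data.N + T.data.N := rfl
      have e2 : ∀ y, (Tangle.stack S T).data.l y = S.data.l y * T.data.l y := fun y => by
        simp [Data.l, Tangle.data]
      have e3 : ∀ y, (Tangle.stack S T).data.r y = S.data.r y * T.data.r y := fun y => by
        simp [Data.r, Tangle.data]
      have e4 : ∀ y, (Tangle.stack S T).data.f y
          = S.data.r y * T.data.f y + S.data.f y * T.data.l y := fun y => by
        simp [Data.l, Data.r, Data.f, Tangle.data]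
      rw [e1, e2, e2, e3, e3, e4, e4, zpow_add₀ hx.ne']
      refine ⟨by positivity, by positivity, by positivity, ?_, ?_, ?_⟩
      · rw [← s4, ← t4]; ring
      · rw [← s5, ← t5]; ring
      · have h1 : x ^ S.data.N * x ^ T.data.N
            * (S.data.r x⁻¹ * T.data.f x⁻¹ + S.data.f x⁻¹ * T.data.l x⁻¹)
            = (x ^ S.data.N * S.data.r x⁻¹) * (x ^ T.data.N * T.data.f x⁻¹)
              + (x ^ S.data.N * S.data.f x⁻¹) * (x ^ T.data.N * T.data.l x⁻¹) := by ring
        rw [h1, s5, t6, s6, t4]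
        linear_combination x * T.data.f x * qS - x * S.data.f x * qT
  | beside P T ihP ihT =>
    obtain ⟨rT, hT⟩ := ihT
    refine ⟨?_, fun x hx => ?_⟩
    · simp only [Tangle.data]
      linear_combination P.data.b * rT
    · obtain ⟨s1, s3, s4, s6⟩ := ihP x hx
      obtain ⟨t1, t2, t3, t4, t5, t6⟩ := hT x hx
      have e1 : (Tangle.beside P T).data.N = P.data.N - 1 + T.data.N := rfl
      have e2 : ∀ y, (Tangle.beside P T).data.l y
          = P.data.f y * T.data.l y + P.data.l y * T.data.f y := fun y => by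
        simp [Data.l, Data.f, Tangle.data]
      have e3 : ∀ y, (Tangle.beside P T).data.r y
          = P.data.f y * T.data.r y + P.data.l y * T.data.f y := fun y => by
        simp [Data.l, Data.r, Data.f, Tangle.data]
      have e4 : ∀ y, (Tangle.beside P T).data.f y = P.data.f y * T.data.f y := fun y => by
        simp [Data.f, Tangle.data]
      have hx0 : x ≠ 0 := hx.ne'
      rw [e1, e2, e2, e3, e3, e4, e4, zpow_add₀ hx0, zpow_sub₀ hx0, zpow_one]
      refine ⟨by positivity, by positivity, by positivity, ?_, ?_, ?_⟩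
      · have h1 : x ^ P.data.N / x * x ^ T.data.N
            * (P.data.f x⁻¹ * T.data.l x⁻¹ + P.data.l x⁻¹ * T.data.f x⁻¹)
            = ((x ^ P.data.N * P.data.f x⁻¹) * (x ^ T.data.N * T.data.l x⁻¹)
              + (x ^ P.data.N * P.data.l x⁻¹) * (x ^ T.data.N * T.data.f x⁻¹)) / x := by ring
        rw [h1, s6, s4, t4, t6]
        field_simp
      · have h1 : x ^ P.data.N / x * x ^ T.data.N
            * (P.data.f x⁻¹ * T.data.r x⁻¹ + P.data.l x⁻¹ * T.data.f x⁻¹)
            = ((x ^ P.data.N * P.data.f x⁻¹) * (x ^ T.data.N * T.data.r x⁻¹)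
              + (x ^ P.data.N * P.data.l x⁻¹) * (x ^ T.data.N * T.data.f x⁻¹)) / x := by ring
        rw [h1, s6, s4, t5, t6]
        field_simp
      · have h1 : x ^ P.data.N / x * x ^ T.data.N * (P.data.f x⁻¹ * T.data.f x⁻¹)
            = ((x ^ P.data.N * P.data.f x⁻¹) * (x ^ T.data.N * T.data.f x⁻¹)) / x := by ring
        rw [h1, s6, t6]
        field_simp
  | flip T ih => exact ih
  | opposite S T ihS ihT =>
    obtain ⟨rS, hS⟩ := ihS
    obtain ⟨rT, hT⟩ := ihT
    intro x hx
    obtain ⟨s1, s2, s3, s4, s5, s6⟩ := hS x hx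
    obtain ⟨t1, t2, t3, t4, t5, t6⟩ := hT x hx
    have qS := rel rS x
    have qT := rel rT x
    have e1 : (Tangle.opposite S T).data.N = S.data.N + T.data.N - 1 := rfl
    have e2 : ∀ y, (Tangle.opposite S T).data.l y
        = S.data.r y * T.data.f y + S.data.f y * T.data.l y := fun y => by
      simp [Data.l, Data.r, Data.f, Tangle.data]
    have e4 : ∀ y, (Tangle.opposite S T).data.f y = S.data.f y * T.data.f y := fun y => by
      simp [Data.f, Tangle.data]
    have hx0 : x ≠ 0 := hx.ne'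
    rw [e1, e2, e2, e4, e4, zpow_sub₀ hx0, zpow_add₀ hx0, zpow_one]
    refine ⟨by positivity, by positivity, ?_, ?_⟩
    · have h1 : x ^ S.data.N * x ^ T.data.N / x
          * (S.data.r x⁻¹ * T.data.f x⁻¹ + S.data.f x⁻¹ * T.data.l x⁻¹)
          = ((x ^ S.data.N * S.data.r x⁻¹) * (x ^ T.data.N * T.data.f x⁻¹)
            + (x ^ S.data.N * S.data.f x⁻¹) * (x ^ T.data.N * T.data.l x⁻¹)) / x := by ring
      rw [h1, s5, t6, s6, t4, div_eq_iff hx0]
      linear_combination x * T.data.f x * qS - x * S.data.f x * qT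
    · have h1 : x ^ S.data.N * x ^ T.data.N / x * (S.data.f x⁻¹ * T.data.f x⁻¹)
          = ((x ^ S.data.N * S.data.f x⁻¹) * (x ^ T.data.N * T.data.f x⁻¹)) / x := by ring
      rw [h1, s6, t6]
      field_simp
  | sum P Q ihP ihQ =>
    intro x hx
    obtain ⟨s1, s3, s4, s6⟩ := ihP x hx
    obtain ⟨t1, t3, t4, t6⟩ := ihQ x hx
    have e1 : (Tangle.sum P Q).data.N = P.data.N + Q.data.N - 1 := rfl
    have e2 : ∀ y, (Tangle.sum P Q).data.l y
        = P.data.l y * Q.data.f y + P.data.f y * Q.data.l y := fun y => by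
      simp [Data.l, Data.f, Tangle.data]
    have e4 : ∀ y, (Tangle.sum P Q).data.f y = P.data.f y * Q.data.f y := fun y => by
      simp [Data.f, Tangle.data]
    have hx0 : x ≠ 0 := hx.ne'
    rw [e1, e2, e2, e4, e4, zpow_sub₀ hx0, zpow_add₀ hx0, zpow_one]
    refine ⟨by positivity, by positivity, ?_, ?_⟩
    · have h1 : x ^ P.data.N * x ^ Q.data.N / x
          * (P.data.l x⁻¹ * Q.data.f x⁻¹ + P.data.f x⁻¹ * Q.data.l x⁻¹)
          = ((x ^ P.data.N * P.data.l x⁻¹) * (x ^ Q.data.N * Q.data.f x⁻¹)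
            + (x ^ P.data.N * P.data.f x⁻¹) * (x ^ Q.data.N * Q.data.l x⁻¹)) / x := by ring
      rw [h1, s4, t6, s6, t4]
      field_simp
    · have h1 : x ^ P.data.N * x ^ Q.data.N / x * (P.data.f x⁻¹ * Q.data.f x⁻¹)
          = ((x ^ P.data.N * P.data.f x⁻¹) * (x ^ Q.data.N * Q.data.f x⁻¹)) / x := by ring
      rw [h1, s6, t6]
      field_simp
  | turn P ihP =>
    intro x hx
    obtain ⟨s1, s3, s4, s6⟩ := ihP x hx
    have e1 : (Tangle.turn P).data.N = P.data.N + 1 := rfl
    have e2 : ∀ y, (Tangle.turn P).data.l y = y * P.data.f y := fun y => by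
      simp [Data.l, Data.f, Tangle.data]
    have e4 : ∀ y, (Tangle.turn P).data.f y = P.data.l y := fun y => by
      simp [Data.l, Data.f, Tangle.data]
    have hx0 : x ≠ 0 := hx.ne'
    rw [e1, e2, e2, e4, e4, zpow_add₀ hx0, zpow_one]
    refine ⟨by positivity, s1, ?_, ?_⟩
    · have h1 : x ^ P.data.N * x * (x⁻¹ * P.data.f x⁻¹)
          = (x * x⁻¹) * (x ^ P.data.N * P.data.f x⁻¹) := by ring
      rw [h1, s6, mul_inv_cancel₀ hx0, one_mul]
    · have h1 : x ^ P.data.N * x * P.data.l x⁻¹ = x * (x ^ P.data.N * P.data.l x⁻¹) := by ring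
      rw [h1, s4]

/-- Packet DATA, parallel tangles. -/
theorem data2 : GoalData2 := fun t => both t

/-- Packet DATA, antiparallel tangles. -/
theorem data1 : GoalData1 := fun t => both t

end Pool.Agent.Helper39.Arb
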